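import Mathlib
import Pool.Agent.Helper31.TRI.Defs
import Pool.Agent.Helper31.PENT.Defs

/-!
Link diagrams with crossings of both signs: an alternating diagram, one polygonal region of which
is filled with an alternating diagram of the opposite sign; outside and inside of the polygon,
triangular regions are filled with alternating diagrams of the opposite sign, and so on.
-/

set_option autoImplicit false

namespace Pool.Agent.Helper89.NEST

open Pool.Agent.Helper42.Th
open Pool.Agent.Helper31.TRI (nxt In sM)
open Pool.Agent.Helper31.PENT (Sphere Inside Polygon)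

variable {E : Type}

/-- `A` is the set of the legs of the triangles, `B` is the set of the legs of the polygon, which
has the sides `σ k`; `s d` says whether the edge of `d` is positive, and `r` is the level of a leg
in `A`.  All edges at a vertex have the same sign, except that the legs which start there have the
opposite sign.  Two legs in `A` are not neighbours, also not with one edge between them.  The legs
in `A` form triples: `e`, `nxt e` and `nxt (nxt e)` start at the vertices of a triangle with the
edges `rot e`, `rot (nxt e)`, `rot (nxt (nxt e))`, and they are the only legs which join the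
inside of the triangle with the outside; the legs which start inside have a smaller level.  If
there are legs in `B`, the surface is a sphere, the sides `σ k` of the polygon are positive, they
are not sides of triangles and not legs. -/
structure Nest (Γ : CMap E) (s : E → Bool) (A B : Set E) (r : E → ℕ) {m : ℕ} (σ : ZMod m → E) :
    Prop where
  flip : ∀ d, s (Γ.flip d) = s d
  rot : ∀ d, s (Γ.rot d) = s d ↔ d ∉ A ∪ B ∧ Γ.rot d ∉ A ∪ B
  apart : ∀ e ∈ A, Γ.rot e ∉ A ∧ Γ.rot (Γ.rot e) ∉ A ∧ Γ.flip e ∉ A ∪ B
  tri : ∀ e ∈ A, nxt Γ e ∈ A ∧ nxt Γ (nxt Γ (nxt Γ e)) = e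
  inner : ∀ e ∈ A, ∀ d, In Γ A e d → Γ.flip d ∈ A ∪ B →
    Γ.flip d = e ∨ Γ.flip d = nxt Γ e ∨ Γ.flip d = nxt Γ (nxt Γ e)
  level : ∀ e ∈ A, ∀ d ∈ A, In Γ A e d → r d < r e
  poly : B.Nonempty → Sphere Γ ∧ Polygon Γ σ B ∧ ∀ k, s (σ k) = true ∧ σ k ∉ A ∧
    Γ.flip (σ k) ∉ A ∧ ∀ e ∈ A, Γ.rot e ≠ σ k ∧ Γ.rot e ≠ Γ.flip (σ k)

/-- The edge of `d` is a side of a triangle or of the polygon. -/
def Side (Γ : CMap E) (A B : Set E) {m : ℕ} (σ : ZMod m → E) (d : E) : Prop :=
  (∃ e ∈ A, Γ.rot e = d ∨ Γ.rot e = Γ.flip d) ∨ (B.Nonempty ∧ ∃ k, σ k = d ∨ σ k = Γ.flip d)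

variable {G : Type*} [Group G] {Γ : CMap E}

/-- For one dart `d ∈ P` of every edge, the crossing ball is filled, with the elements `F d` in
the filling: with a slope of the sign `s d`, the absolute value of which is at most `1` for the
legs and at least `1` for the sides. -/
structure Filled (L : Lab G Γ) (s : E → Bool) (A B : Set E) {m : ℕ} (σ : ZMod m → E) (P : Set E)
    (F : E → Set G) : Prop where
  cover : ∀ d, d ∈ P ∨ Γ.flip d ∈ P
  leg : ∀ d ∈ P, d ∈ A ∪ B ∨ Γ.flip d ∈ A ∪ B → Fill false 1 (L.D d) (sM L s d) (F d)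
  side : ∀ d ∈ P, Side Γ A B σ d → Fill false 1 (sM L s d) (L.D d) (F d)
  other : ∀ d ∈ P, d ∉ A ∪ B → Γ.flip d ∉ A ∪ B → ¬ Side Γ A B σ d →
    Fill true 0 (sM L s d) (L.D d) (F d)

end Pool.Agent.Helper89.NEST
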