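import Mathlib
import Pool.Agent.Helper89.NEST.Defs
import Pool.Agent.Helper31.TRI.Rules

/-!
What the fillings mean for an action on a complete linear order.
-/

set_option autoImplicit false

namespace Pool.Agent.Helper89.NEST

open Pool.Agent.Helper42.Th
open Pool.Agent.Helper31.OrderAct
open Pool.Agent.Helper71.Rot
open Pool.Agent.Helper71.Tree
open Pool.Agent.Helper31.TRI (nxt In sM top one_rules pos_rules top_sM comm_sM)
open Pool.Agent.Helper31.PENT (Sphere Inside Polygon)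


lemma Side.flip {E : Type} {Γ : CMap E} {A B : Set E} {m : ℕ} {σ : ZMod m → E} {d : E}
    (h : Side Γ A B σ d) : Side Γ A B σ (Γ.flip d) := by
  rcases h with ⟨e, he, h⟩ | ⟨hB, k, h⟩
  · exact Or.inl ⟨e, he, by rw [Γ.flip_flip]; exact h.symm⟩
  · exact Or.inr ⟨hB, k, by rw [Γ.flip_flip]; exact h.symm⟩

/-- What the fillings mean for the action. -/
structure Rules {E : Type} {Ω : Type*} [LinearOrder Ω] (Γ : CMap E) (s : E → Bool) (A B : Set E)
    {m : ℕ} (σ : ZMod m → E) (X Y : E → Ω ≃o Ω) : Prop where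
  x_rot : ∀ d z, X (Γ.rot d) z = X d z
  y_rot : ∀ d z, Y (Γ.flip (Γ.rot d)) z = Y d z
  pos : ∀ d z, X (Γ.flip d) z ≤ X d z → top Γ s Y (Γ.flip d) z ≤ top Γ s Y d z
  str : ∀ d z, top Γ s Y (Γ.flip d) z = top Γ s Y d z → X (Γ.flip d) z = X d z
  side : ∀ d z w, Side Γ A B σ d → z ≤ w →
    X (Γ.flip d) w = X d z → top Γ s Y (Γ.flip d) w ≤ top Γ s Y d z
  leg : ∀ d z w, d ∈ A ∪ B ∨ Γ.flip d ∈ A ∪ B → z ≤ w → top Γ s Y (Γ.flip d) w = top Γ s Y d z →
    X (Γ.flip d) w ≤ X d z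

variable {E : Type} {Γ : CMap E} {Ω : Type*} [CompleteLinearOrder Ω] {G : Type*} [Group G]
  (L : Lab G Γ) (ρ : G →* (Ω ≃o Ω)) {s : E → Bool} {A B P : Set E} {r : E → ℕ} {m : ℕ} {σ : ZMod m → E}
  {F : E → Set G}

/-- The rules for a dart and for the opposite dart. -/
lemma rules_of_filled (H : Nest Γ s A B r σ) (h : Filled L s A B σ P F) :
    Rules Γ s A B σ (lx L ρ) (ly L ρ) := by
  have hs := H.flip
  -- the values
  have hX : ∀ d z, lx L ρ (Γ.flip d) (ρ (L.D d) z) = lx L ρ d z := X_D L ρ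
  have hT : ∀ d z, top Γ s (ly L ρ) (Γ.flip d) (ρ (sM L s d) z) = top Γ s (ly L ρ) d z :=
    top_sM L ρ hs
  have xle : ∀ d z w, w ≤ ρ (L.D d) z ↔ lx L ρ (Γ.flip d) w ≤ lx L ρ d z := by
    intro d z w
    rw [← hX d z]
    exact (lx L ρ (Γ.flip d)).le_iff_le.symm
  have xge : ∀ d z w, ρ (L.D d) z ≤ w ↔ lx L ρ d z ≤ lx L ρ (Γ.flip d) w := by
    intro d z w
    rw [← hX d z]
    exact (lx L ρ (Γ.flip d)).le_iff_le.symm
  have tle : ∀ d z w, w ≤ ρ (sM L s d) z ↔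
      top Γ s (ly L ρ) (Γ.flip d) w ≤ top Γ s (ly L ρ) d z := by
    intro d z w
    rw [← hT d z]
    exact (top Γ s (ly L ρ) (Γ.flip d)).le_iff_le.symm
  have tge : ∀ d z w, ρ (sM L s d) z ≤ w ↔
      top Γ s (ly L ρ) d z ≤ top Γ s (ly L ρ) (Γ.flip d) w := by
    intro d z w
    rw [← hT d z]
    exact (top Γ s (ly L ρ) (Γ.flip d)).le_iff_le.symm
  -- the three kinds of darts in `P`
  have leg0 : ∀ d ∈ P, d ∈ A ∪ B ∨ Γ.flip d ∈ A ∪ B → ∀ z,
      (z ≤ ρ (sM L s d) z → ρ (sM L s d) z ≤ ρ (L.D d) z) ∧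
      (ρ (sM L s d) z ≤ z → ρ (L.D d) z ≤ ρ (sM L s d) z) := by
    intro d hd hA z
    exact one_rules (spec_of_fill ρ (h.leg d hd hA)) (comm_sM L ρ d).symm z
  have side0 : ∀ d ∈ P, Side Γ A B σ d → ∀ z,
      (z ≤ ρ (L.D d) z → ρ (L.D d) z ≤ ρ (sM L s d) z) ∧
      (ρ (L.D d) z ≤ z → ρ (sM L s d) z ≤ ρ (L.D d) z) := by
    intro d hd hA z
    exact one_rules (spec_of_fill ρ (h.side d hd hA)) (comm_sM L ρ d) z
  have all0 : ∀ d ∈ P, ∀ z, (z ≤ ρ (L.D d) z → z ≤ ρ (sM L s d) z) ∧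
      (ρ (L.D d) z ≤ z → ρ (sM L s d) z ≤ z) ∧ (ρ (sM L s d) z = z → ρ (L.D d) z = z) := by
    intro d hd z
    by_cases h1 : d ∈ A ∪ B ∨ Γ.flip d ∈ A ∪ B
    · obtain ⟨h2, h3⟩ := leg0 d hd h1 z
      refine ⟨fun h4 => ?_, fun h4 => ?_, fun h4 => le_antisymm ?_ ?_⟩
      · by_contra hn
        push Not at hn
        exact absurd (h4.trans (h3 hn.le)) (not_le.mpr hn)
      · by_contra hn
        push Not at hn
        exact absurd ((h2 hn.le).trans h4) (not_le.mpr hn)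
      · exact (h3 h4.le).trans h4.le
      · exact h4.ge.trans (h2 h4.ge)
    · by_cases h2 : Side Γ A B σ d
      · obtain ⟨h3, h4⟩ := side0 d hd h2 z
        refine ⟨fun h5 => h5.trans (h3 h5), fun h5 => (h4 h5).trans h5, fun h5 => ?_⟩
        rcases le_total z (ρ (L.D d) z) with h6 | h6
        · exact le_antisymm ((h3 h6).trans h5.le) h6
        · exact le_antisymm h6 (h5.ge.trans (h4 h6))
      · exact pos_rules (spec_of_fill ρ (h.other d hd (fun h3 => h1 (Or.inl h3))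
          (fun h3 => h1 (Or.inr h3)) h2)) (comm_sM L ρ d) z
  refine ⟨?_, ?_, ?_, ?_, ?_, ?_⟩
  · intro d z
    change ρ (L.x (Γ.rot d)) z = ρ (L.x d) z
    rw [L.x_rot]
  · intro d z
    change ρ (L.y (Γ.flip (Γ.rot d))) z = ρ (L.y d) z
    rw [L.y_rot]
  · intro d z h1
    rcases h.cover d with hd | hd
    · rw [← tle, ← xle] at *
      exact (all0 d hd z).1 h1
    · have h2 := (all0 _ hd z).2.1 ((xge _ _ _).mpr (by rwa [Γ.flip_flip]))
      rw [tge, Γ.flip_flip] at h2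
      exact h2
  · intro d z h1
    rcases h.cover d with hd | hd
    · have h2 := (all0 d hd z).2.2 (le_antisymm ((tge _ _ _).mpr h1.ge) ((tle _ _ _).mpr h1.le))
      exact le_antisymm ((xle _ _ _).mp h2.ge) ((xge _ _ _).mp h2.le)
    · have h2 := (all0 _ hd z).2.2 (le_antisymm ((tge _ _ _).mpr (by
        rw [Γ.flip_flip]; exact h1.le)) ((tle _ _ _).mpr (by rw [Γ.flip_flip]; exact h1.ge)))
      have h3 := (xle _ _ _).mp h2.ge
      have h4 := (xge _ _ _).mp h2.le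
      rw [Γ.flip_flip] at h3 h4
      exact le_antisymm h4 h3
  · intro d z w hA hzw h1
    rcases h.cover d with hd | hd
    · have e1 : ρ (L.D d) z = w := le_antisymm ((xge _ _ _).mpr h1.ge) ((xle _ _ _).mpr h1.le)
      rw [← tle, ← e1]
      exact (side0 d hd hA z).1 (by rwa [e1])
    · have hA' : Side Γ A B σ (Γ.flip d) := hA.flip
      have e1 : ρ (L.D (Γ.flip d)) w = z := le_antisymm ((xge _ _ _).mpr (by
        rw [Γ.flip_flip]; exact h1.le)) ((xle _ _ _).mpr (by rw [Γ.flip_flip]; exact h1.ge))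
      have h2 := (side0 _ hd hA' w).2 (by rwa [e1])
      rw [e1, tge, Γ.flip_flip] at h2
      exact h2
  · intro d z w hA hzw h1
    rcases h.cover d with hd | hd
    · have e1 : ρ (sM L s d) z = w := le_antisymm ((tge _ _ _).mpr h1.ge) ((tle _ _ _).mpr h1.le)
      rw [← xle, ← e1]
      exact (leg0 d hd hA z).1 (by rwa [e1])
    · have hA' : Γ.flip d ∈ A ∪ B ∨ Γ.flip (Γ.flip d) ∈ A ∪ B := by
        rw [Γ.flip_flip]
        exact hA.symm
      have e1 : ρ (sM L s (Γ.flip d)) w = z := le_antisymm ((tge _ _ _).mpr (by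
        rw [Γ.flip_flip]; exact h1.le)) ((tle _ _ _).mpr (by rw [Γ.flip_flip]; exact h1.ge))
      have h2 := (leg0 _ hd hA' w).2 (by rwa [e1])
      rw [e1, xge, Γ.flip_flip] at h2
      exact h2

end Pool.Agent.Helper89.NEST
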