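import Mathlib
import Pool.Agent.Helper89.NEST.Rules
import Pool.Agent.Helper31.TRI.Proof
import Pool.Agent.Helper31.PENT.Max

/-!
The filled triangles behave like edges.
-/

set_option autoImplicit false

namespace Pool.Agent.Helper89.NEST

open Pool.Agent.Helper42.Th
open Pool.Agent.Helper31.TRI (nxt In sM top mn Claim core)
open Pool.Agent.Helper31.PENT (Sphere Inside Polygon eg inside_rot not_inside_flip)

variable {E : Type} {Γ : CMap E} {s : E → Bool} {A B : Set E} {r : E → ℕ} {m : ℕ} {σ : ZMod m → E}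

section Comb

lemma Nest.notB (H : Nest Γ s A B r σ) {e : E} (he : e ∈ A) : e ∉ B := by
  intro hB
  obtain ⟨-, hP, h⟩ := H.poly ⟨e, hB⟩
  obtain ⟨k, hk⟩ := hP.leg_eg hB
  have h1 := hP.rot_eg (k := k) (by rwa [← hk])
  rw [← hk] at h1
  exact ((h k).2.2.2 e he).1 h1

lemma Nest.rotA (H : Nest Γ s A B r σ) {e : E} (he : e ∈ A) : Γ.rot e ∉ A ∪ B := by
  rintro (h | hB)
  · exact (H.apart e he).1 h
  · obtain ⟨-, hP, h⟩ := H.poly ⟨_, hB⟩
    obtain ⟨k, hk⟩ := hP.leg_eg hB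
    have h1 : e = Γ.flip (σ (k - 1)) := Γ.rot.injective hk
    exact (h (k - 1)).2.2.1 (h1 ▸ he)

lemma Nest.rotrotA (H : Nest Γ s A B r σ) {e : E} (he : e ∈ A) : Γ.rot (Γ.rot e) ∉ A ∪ B := by
  rintro (h | hB)
  · exact (H.apart e he).2.1 h
  · obtain ⟨-, hP, h⟩ := H.poly ⟨_, hB⟩
    obtain ⟨k, hk⟩ := hP.leg_eg hB
    exact ((h (k - 1)).2.2.2 e he).2 (Γ.rot.injective hk)

lemma Nest.rotB (H : Nest Γ s A B r σ) {e : E} (he : e ∈ B) : Γ.rot e ∉ A ∪ B := by
  obtain ⟨-, hP, h⟩ := H.poly ⟨e, he⟩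
  obtain ⟨k, hk⟩ := hP.leg_eg he
  have h1 := hP.rot_eg (k := k) (by rwa [← hk])
  rw [← hk] at h1
  rw [h1]
  rintro (h2 | h2)
  · exact (h k).2.1 h2
  · exact hP.not_leg k h2

lemma Nest.flipA (H : Nest Γ s A B r σ) {e : E} (he : e ∈ A) : Γ.flip (Γ.rot e) ∉ A ∪ B := by
  rintro (h | hB)
  · exact (H.apart _ h).1 (H.tri e he).1
  · have h1 : Γ.rot (Γ.flip (Γ.rot e)) ∉ A ∪ B := H.rotB hB
    exact h1 (Or.inl (H.tri e he).1)

lemma Nest.nxt_s (H : Nest Γ s A B r σ) {e : E} (he : e ∈ A) : s (Γ.rot e) = !(s e) ∧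
    s (nxt Γ e) = s e := by
  have h2 : s (Γ.rot e) ≠ s e := fun h => ((H.rot e).mp h).1 (Or.inl he)
  have h3 : s (nxt Γ e) ≠ s (Γ.flip (Γ.rot e)) := fun h =>
    ((H.rot _).mp h).2 (Or.inl (H.tri e he).1)
  rw [H.flip] at h3
  cases h4 : s (Γ.rot e) <;> cases h5 : s e <;> cases h6 : s (nxt Γ e) <;> simp_all

lemma Nest.before (H : Nest Γ s A B r σ) {e : E} (he : e ∈ A) :
    Γ.rot (nxt Γ (nxt Γ e)) = Γ.flip (Γ.rot.symm e) := by
  have h1 : Γ.rot (Γ.flip (Γ.rot (nxt Γ (nxt Γ e)))) = e := (H.tri e he).2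
  have h2 : Γ.flip (Γ.rot (nxt Γ (nxt Γ e))) = Γ.rot.symm e := by
    rw [← h1, Equiv.symm_apply_apply]
    rw [h1]
  rw [← h2, Γ.flip_flip]

lemma Nest.mn_rot (H : Nest Γ s A B r σ) (d : E) :
    mn s (A ∪ B) (Γ.rot d) ↔ mn s (A ∪ B) d := by
  have h1 := H.rot d
  unfold mn
  by_cases h2 : d ∈ A ∪ B
  · have h3 : Γ.rot d ∉ A ∪ B := by
      rcases h2 with h2 | h2
      · exact H.rotA h2
      · exact H.rotB h2
    have h4 : s (Γ.rot d) ≠ s d := fun h => (h1.mp h).1 h2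
    cases h5 : s (Γ.rot d) <;> cases h6 : s d <;> simp_all
  · by_cases h3 : Γ.rot d ∈ A ∪ B
    · have h4 : s (Γ.rot d) ≠ s d := fun h => (h1.mp h).2 h3
      cases h5 : s (Γ.rot d) <;> cases h6 : s d <;> simp_all
    · have h4 : s (Γ.rot d) = s d := h1.mpr ⟨h2, h3⟩
      simp [h2, h3, h4]

/-- Inside of a triangle, there are no legs of the polygon. -/
lemma Nest.in_notB (H : Nest Γ s A B r σ) {e d : E} (he : e ∈ A) (hd : In Γ A e d) :
    d ∉ B ∧ Γ.flip d ∉ B := by
  have key : ∀ d, In Γ A e d → Γ.flip d ∉ B := by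
    intro d hd hB
    obtain ⟨he1, -⟩ := H.tri e he
    obtain ⟨he2, -⟩ := H.tri _ he1
    rcases H.inner e he d hd (Or.inr hB) with h | h | h
    · exact H.notB (h ▸ he) hB
    · exact H.notB (h ▸ he1) hB
    · exact H.notB (h ▸ he2) hB
  refine ⟨fun hB => ?_, key d hd⟩
  have h1 : d ∉ A := fun h => H.notB h hB
  have h2 : Γ.flip d ∉ A := fun h => by
    have h3 := (H.apart _ h).2.2
    rw [Γ.flip_flip] at h3
    exact h3 (Or.inr hB)
  have h3 := key _ (In.pass d hd h1 h2)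
  rw [Γ.flip_flip] at h3
  exact h3 hB

/-- Going around vertices, without entering the filled triangles. -/
lemma vertex [Finite E] {T : Type*} [LinearOrder T] (H : Nest Γ s A B r σ) (W : Set E)
    (hW : ∀ d ∈ W, Γ.rot d ∈ W) (g : E → T) (g_rot : ∀ d, g (Γ.flip (Γ.rot d)) = g d)
    (hn : ∀ d ∈ W, d ∉ A → Γ.rot d ∉ A → Γ.rot.symm d ∉ A → g (Γ.flip d) ≤ g d)
    (hl : ∀ e ∈ W, e ∈ A → g (Γ.rot (nxt Γ (nxt Γ e))) ≤ g (Γ.rot e)) :
    (∀ d ∈ W, d ∉ A → Γ.rot d ∉ A → Γ.rot.symm d ∉ A → g (Γ.flip d) = g d) ∧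
      (∀ e ∈ W, e ∈ A → g (Γ.rot e) ≤ g (Γ.rot (nxt Γ (nxt Γ e)))) := by
  classical
  set h : E → T := fun d => if Γ.rot d ∈ A then g (Γ.flip d) else
    if d ∈ A then g (Γ.flip (Γ.rot.symm d)) else g d with hh
  -- the values of `h`
  have hA1 : ∀ e ∈ A, h e = g (Γ.rot (nxt Γ (nxt Γ e))) := by
    intro e he
    simp only [hh, (H.apart e he).1, if_false, he, if_true]
    rw [H.before he]
  have hA2 : ∀ e ∈ A, h (Γ.rot e) = g (Γ.rot e) := by
    intro e he
    simp only [hh, (H.apart e he).1, (H.apart e he).2.1, if_false]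
  have hA0 : ∀ d, Γ.rot d ∈ A → h d = g (Γ.flip d) := by
    intro d hd
    simp only [hh, hd, if_true]
  have hN : ∀ d, d ∉ A → Γ.rot d ∉ A → h d = g d := by
    intro d h1 h2
    simp only [hh, h1, h2, if_false]
  have hle : ∀ d ∈ W, h d ≤ h (Γ.rot d) := by
    intro d hd
    by_cases h1 : d ∈ A
    · rw [hA1 d h1, hA2 d h1]
      exact hl d hd h1
    · by_cases h2 : Γ.rot d ∈ A
      · rw [hA0 d h2, hA1 _ h2, H.before h2, Equiv.symm_apply_apply]
      · rw [hN d h1 h2]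
        by_cases h3 : Γ.rot (Γ.rot d) ∈ A
        · rw [hA0 _ h3, g_rot]
        · rw [hN _ h2 h3]
          have h4 := hn _ (hW d hd) h2 h3 (by rwa [Equiv.symm_apply_apply])
          rwa [g_rot] at h4
  have hc := Harm.chain_const Γ h W hW hle
  refine ⟨?_, ?_⟩
  · intro d hd h1 h2 h3
    obtain ⟨c, rfl⟩ := Γ.rot.surjective d
    rw [Equiv.symm_apply_apply] at h3
    have hcW : c ∈ W := by
      have hn : ∀ n : ℕ, (Γ.rot ^ n) (Γ.rot c) ∈ W := by
        intro n
        induction n with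
        | zero => exact hd
        | succ n ih =>
          rw [pow_succ', Equiv.Perm.mul_apply]
          exact hW _ ih
      have h4 : 0 < orderOf Γ.rot := orderOf_pos _
      have h5 := hn (orderOf Γ.rot - 1)
      rwa [← Equiv.Perm.mul_apply, ← pow_succ,
        show orderOf Γ.rot - 1 + 1 = orderOf Γ.rot by omega, pow_orderOf_eq_one] at h5
    have h4 := hc c hcW
    rw [hN _ h1 h2, hN _ h3 h1] at h4
    rw [g_rot, h4]
  · intro e he hA
    have h4 := hc e he
    rw [hA1 e hA, hA2 e hA] at h4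
    exact h4.le

end Comb

section Claims

variable {Ω : Type*} [LinearOrder Ω] {X Y : E → Ω ≃o Ω}

/-- What is inside is not below the vertices of the triangle. -/
theorem claim_of_inner (H : Nest Γ s A B r σ) (R : Rules Γ s A B σ X Y) {e : E} (he : e ∈ A)
    (hin : ∀ q, X (Γ.flip e) q ≤ X e q → X (Γ.flip e) q ≤ X (nxt Γ (nxt Γ e)) q →
      X (Γ.flip e) q ≤ X (nxt Γ e) q → X (Γ.flip e) q = X e q) : Claim Γ s X Y e := by
  obtain ⟨he1, he3⟩ := H.tri e he
  obtain ⟨he2, -⟩ := H.tri _ he1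
  obtain ⟨s1, s2⟩ := H.nxt_s he
  obtain ⟨s3, s4⟩ := H.nxt_s he1
  obtain ⟨s5, s6⟩ := H.nxt_s he2
  set b := nxt Γ (nxt Γ e) with hb
  have e1 : Γ.rot (Γ.flip (Γ.rot b)) = e := he3
  -- the sides
  have hsc := fun z w (hzw : z ≤ w) h => R.side (Γ.rot e) z w (Or.inl ⟨e, he, Or.inl rfl⟩) hzw h
  have hsb := fun z w (hzw : z ≤ w) h =>
    R.side (Γ.flip (Γ.rot b)) z w (Or.inl ⟨b, he2, Or.inr (by rw [Γ.flip_flip])⟩) hzw h
  have hleg := fun z w (hzw : z ≤ w) h => R.leg e z w (Or.inl (Or.inl he)) hzw h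
  have xb : ∀ z, X (Γ.flip (Γ.rot b)) z = X e z := by
    intro z
    rw [← R.x_rot, e1]
  have xc : ∀ z, X (Γ.flip (Γ.rot e)) z = X (nxt Γ e) z := by
    intro z
    rw [← R.x_rot]
    rfl
  have yb : ∀ z, Y (Γ.flip e) z = Y (Γ.flip (Γ.rot b)) z := by
    intro z
    have := R.y_rot (Γ.flip (Γ.rot b)) z
    rwa [e1] at this
  have yc : ∀ z, Y (Γ.flip (Γ.rot e)) z = Y e z := R.y_rot e
  intro t ht1 ht2
  refine ⟨fun hs => ?_, fun hs => ?_⟩
  · rw [hs] at s1 s2
    rw [s2] at s3 s4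
    rw [s4] at s5 s6
    have t1 : s (Γ.flip (Γ.rot e)) = true := (H.flip _).trans s1
    have t2 : s (Γ.flip (Γ.rot b)) = true := (H.flip _).trans s5
    have t3 : s (Γ.flip e) = false := (H.flip _).trans hs
    have := core (X e) (X b) (X (nxt Γ e)) (X (Γ.flip e)) (Y (Γ.rot b)) (Y (Γ.flip e)) (Y e)
      (Y (Γ.rot e)) ?_ ?_ ?_ hin ht1 ht2
    · exact this
    · intro z w hzw h
      have h1 := hsb z w hzw (by
        rw [Γ.flip_flip, xb, R.x_rot]
        exact h)
      simp only [top, Γ.flip_flip, t2, s5, if_true, Bool.not_false] at h1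
      rw [yb]
      exact h1
    · intro z w hzw h
      have h1 := hsc z w hzw (by
        rw [xc, R.x_rot]
        exact h)
      simp only [top, t1, s1, if_true, Bool.not_false] at h1
      rw [yc] at h1
      exact h1
    · intro z w hzw h
      apply hleg z w hzw
      simp only [top, t3, hs, Γ.flip_flip, if_false, Bool.false_eq_true]
      exact h
  · rw [hs] at s1 s2
    rw [s2] at s3 s4
    rw [s4] at s5 s6
    have t1 : s (Γ.flip (Γ.rot e)) = false := (H.flip _).trans s1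
    have t2 : s (Γ.flip (Γ.rot b)) = false := (H.flip _).trans s5
    have t3 : s (Γ.flip e) = true := (H.flip _).trans hs
    have := core (X e) (X (nxt Γ e)) (X b) (X (Γ.flip e)) (Y (Γ.rot e)) (Y e) (Y (Γ.flip e))
      (Y (Γ.rot b)) ?_ ?_ ?_ (fun q h1 h2 h3 => hin q h1 h3 h2) ht2 ht1
    · exact ⟨this.1, fun h => by
        obtain ⟨h1, h2, h3⟩ := this.2 h
        exact ⟨h2, h1, h3⟩⟩
    · intro z w hzw h
      have h1 := hsc z w hzw (by
        rw [xc, R.x_rot]
        exact h)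
      simp only [top, t1, s1, if_false, Γ.flip_flip, Bool.not_true, Bool.false_eq_true] at h1
      rw [yc] at h1
      exact h1
    · intro z w hzw h
      have h1 := hsb z w hzw (by
        rw [Γ.flip_flip, xb, R.x_rot]
        exact h)
      simp only [top, Γ.flip_flip, t2, s5, if_false, Bool.not_true, Bool.false_eq_true] at h1
      rw [yb]
      exact h1
    · intro z w hzw h
      apply hleg z w hzw
      simp only [top, t3, hs, if_true]
      exact h

/-- The maximum principle. -/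
theorem spread [Finite E] (H : Nest Γ s A B r σ) (R : Rules Γ s A B σ X Y) (z : Ω) (W : Set E)
    (hW : ∀ d, Γ.rot d ∈ W ↔ d ∈ W) (hB : ∀ d ∈ W, d ∉ B)
    (hcl : ∀ e ∈ W, e ∈ A → Claim Γ s X Y e)
    (h1 : ∀ d ∈ W, d ∉ A → X (Γ.flip d) z ≤ X d z)
    (h2 : ∀ e ∈ W, e ∈ A → X (nxt Γ e) z ≤ X e z ∧ X (nxt Γ (nxt Γ e)) z ≤ X e z) :
    ∀ d ∈ W, X (Γ.flip d) z = X d z := by
  have hWs : ∀ d ∈ W, Γ.rot.symm d ∈ W := by
    intro d hd
    rw [← hW, Equiv.apply_symm_apply]
    exact hd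
  have hAB : ∀ d ∈ W, d ∉ A → d ∉ A ∪ B := by
    rintro d hd ha (h | h)
    · exact ha h
    · exact hB d hd h
  -- vertices with positive edges
  have hp := vertex H {d | d ∈ W ∧ mn s (A ∪ B) d}
    (fun d hd => ⟨(hW d).mpr hd.1, (H.mn_rot d).mpr hd.2⟩) (fun d => Y d z)
    (fun d => R.y_rot d z) (fun d hd ha _ _ => by
      have hs : s d = true := by
        rcases hd.2 with h | h
        · exact absurd h.1 (hAB d hd.1 ha)
        · exact h.2
      have h3 := R.pos d z (h1 d hd.1 ha)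
      simpa only [top, hs, H.flip, if_true] using h3) (fun e he ha => by
      have hs : s e = false := by
        rcases he.2 with h | h
        · exact h.2
        · exact absurd (Or.inl ha) h.1
      exact ((hcl e he.1 ha z (h2 e he.1 ha).2 (h2 e he.1 ha).1).1 hs).1)
  have hm := vertex H {d | d ∈ W ∧ ¬ mn s (A ∪ B) d}
    (fun d hd => ⟨(hW d).mpr hd.1, fun h => hd.2 ((H.mn_rot d).mp h)⟩)
    (fun d => OrderDual.toDual (Y d z))
    (fun d => congrArg _ (R.y_rot d z)) (fun d hd ha _ _ => by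
      have hs : s d = false := by
        by_contra hn
        exact hd.2 (Or.inr ⟨hAB d hd.1 ha, by simpa using hn⟩)
      have h3 := R.pos d z (h1 d hd.1 ha)
      simpa only [top, hs, H.flip, if_false, Γ.flip_flip, Bool.false_eq_true,
        OrderDual.toDual_le_toDual] using h3) (fun e he ha => by
      have hs : s e = true := by
        by_contra hn
        exact he.2 (Or.inl ⟨Or.inl ha, by simpa using hn⟩)
      exact ((hcl e he.1 ha z (h2 e he.1 ha).2 (h2 e he.1 ha).1).2 hs).1)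
  -- the legs
  have hleg : ∀ e ∈ W, e ∈ A → X (nxt Γ (nxt Γ e)) z = X e z ∧ X (nxt Γ e) z = X e z ∧
      X (Γ.flip e) z = X e z := by
    intro e he ha
    by_cases hmn : mn s (A ∪ B) e
    · have hs : s e = false := by
        rcases hmn with h | h
        · exact h.2
        · exact absurd (Or.inl ha) h.1
      exact ((hcl e he ha z (h2 e he ha).2 (h2 e he ha).1).1 hs).2 (hp.2 e ⟨he, hmn⟩ ha)
    · have hs : s e = true := by
        by_contra hn
        exact hmn (Or.inl ⟨Or.inl ha, by simpa using hn⟩)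
      exact ((hcl e he ha z (h2 e he ha).2 (h2 e he ha).1).2 hs).2
        (OrderDual.toDual_le_toDual.mp (hm.2 e ⟨he, hmn⟩ ha))
  intro d hd
  by_cases ha : d ∈ A
  · exact (hleg d hd ha).2.2
  · by_cases ha1 : Γ.rot d ∈ A
    · obtain ⟨h3, -, -⟩ := hleg _ ((hW d).mpr hd) ha1
      have h4 : X (Γ.rot (nxt Γ (nxt Γ (Γ.rot d)))) z = X (Γ.rot d) z := by
        rw [R.x_rot, h3]
      rw [H.before ha1, Equiv.symm_apply_apply, R.x_rot] at h4
      exact h4
    · by_cases ha2 : Γ.rot.symm d ∈ A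
      · obtain ⟨-, h3, -⟩ := hleg _ (hWs d hd) ha2
        obtain ⟨c, rfl⟩ := Γ.rot.surjective d
        rw [Equiv.symm_apply_apply] at h3
        rw [R.x_rot, ← h3, ← R.x_rot]
        rfl
      · apply R.str
        by_cases hmn : mn s (A ∪ B) d
        · have hs : s d = true := by
            rcases hmn with h | h
            · exact absurd h.1 (hAB d hd ha)
            · exact h.2
          simp only [top, hs, H.flip, if_true]
          exact hp.1 d ⟨hd, hmn⟩ ha ha1 ha2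
        · have hs : s d = false := by
            by_contra hn
            exact hmn (Or.inr ⟨hAB d hd ha, by simpa using hn⟩)
          simp only [top, hs, H.flip, if_false, Γ.flip_flip, Bool.false_eq_true]
          exact (OrderDual.toDual.injective (hm.1 d ⟨hd, hmn⟩ ha ha1 ha2)).symm

end Claims

end Pool.Agent.Helper89.NEST
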