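import Mathlib
import Pool.Agent.Helper89.NEST.Proof

/-!
All filled triangles behave like edges.
-/

set_option autoImplicit false

namespace Pool.Agent.Helper89.NEST

open Pool.Agent.Helper42.Th
open Pool.Agent.Helper31.TRI (nxt In sM top mn Claim core)

variable {E : Type} {Γ : CMap E} {s : E → Bool} {A B : Set E} {r : E → ℕ} {m : ℕ} {σ : ZMod m → E}

section

variable {Ω : Type*} [LinearOrder Ω] {X Y : E → Ω ≃o Ω}

/-- The rules for the opposite order. -/
lemma Rules.dual (R : Rules Γ s A B σ X Y) :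
    Rules Γ s A B σ (fun d => (X d).dual) (fun d => (Y d).dual) := by
  have ht : ∀ d (z : Ωᵒᵈ), top Γ s (fun d => (Y d).dual) d z =
      OrderDual.toDual (top Γ s Y d (OrderDual.ofDual z)) := by
    intro d z
    unfold top
    split_ifs <;> rfl
  refine ⟨fun d z => ?_, fun d z => ?_, fun d z h => ?_, fun d z h => ?_, fun d z w hA hzw h => ?_,
    fun d z w hA hzw h => ?_⟩
  · exact congrArg OrderDual.toDual (R.x_rot d (OrderDual.ofDual z))
  · exact congrArg OrderDual.toDual (R.y_rot d (OrderDual.ofDual z))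
  · rw [ht, ht, OrderDual.toDual_le_toDual]
    have h1 := R.pos (Γ.flip d) (OrderDual.ofDual z) (by
      rw [Γ.flip_flip]
      exact h)
    rwa [Γ.flip_flip] at h1
  · rw [ht, ht] at h
    exact congrArg OrderDual.toDual (R.str d (OrderDual.ofDual z) (OrderDual.toDual.injective h))
  · rw [ht, ht, OrderDual.toDual_le_toDual]
    have h1 := R.side (Γ.flip d) (OrderDual.ofDual w) (OrderDual.ofDual z) hA.flip hzw (by
      rw [Γ.flip_flip]
      exact (OrderDual.toDual.injective h).symm)
    rwa [Γ.flip_flip] at h1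
  · rw [ht, ht] at h
    have h1 := R.leg (Γ.flip d) (OrderDual.ofDual w) (OrderDual.ofDual z) (by
      rw [Γ.flip_flip]
      exact hA.symm) hzw (by
      rw [Γ.flip_flip]
      exact (OrderDual.toDual.injective h).symm)
    rw [Γ.flip_flip] at h1
    exact h1

/-- The maximum over the vertices inside a triangle is not attained at the end of a leg only. -/
theorem inner_max [Finite E] (H : Nest Γ s A B r σ) (R : Rules Γ s A B σ X Y) {e : E} (he : e ∈ A)
    (hcl : ∀ d ∈ A, In Γ A e d → Claim Γ s X Y d) (q : Ω) (h1 : X e q ≤ X (Γ.flip e) q)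
    (h2 : X (nxt Γ (nxt Γ e)) q ≤ X (Γ.flip e) q) (h3 : X (nxt Γ e) q ≤ X (Γ.flip e) q) :
    X e q = X (Γ.flip e) q := by
  -- the maximum
  have hfin : (Set.univ : Set E).Finite := Set.finite_univ
  obtain ⟨m', hm, hmax⟩ := Set.exists_max_image {d | In Γ A e d} (fun d => X d q)
    (Set.toFinite _) ⟨_, In.start⟩
  change In Γ A e m' at hm
  have hmax' : ∀ d, In Γ A e d → X d q ≤ X m' q := fun d hd => hmax d hd
  set W : Set E := {d | In Γ A e d ∧ X d q = X m' q} with hWd
  have hrot : ∀ d, In Γ A e (Γ.rot d) → In Γ A e d := by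
    intro d hd
    have hn : ∀ n : ℕ, In Γ A e ((Γ.rot ^ n) (Γ.rot d)) := by
      intro n
      induction n with
      | zero => exact hd
      | succ n ih =>
        rw [pow_succ', Equiv.Perm.mul_apply]
        exact In.rot _ ih
    have h4 : 0 < orderOf Γ.rot := orderOf_pos _
    have h5 := hn (orderOf Γ.rot - 1)
    rwa [← Equiv.Perm.mul_apply, ← pow_succ,
      show orderOf Γ.rot - 1 + 1 = orderOf Γ.rot by omega, pow_orderOf_eq_one] at h5
  have hW : ∀ d, Γ.rot d ∈ W ↔ d ∈ W := by
    intro d
    constructor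
    · rintro ⟨h4, h5⟩
      exact ⟨hrot d h4, (R.x_rot d q).symm.trans h5⟩
    · rintro ⟨h4, h5⟩
      exact ⟨In.rot d h4, (R.x_rot d q).trans h5⟩
  have hle : ∀ d, In Γ A e d → d ∉ A → X (Γ.flip d) q ≤ X m' q := by
    intro d hd hdA
    by_cases h4 : Γ.flip d ∈ A
    · have h5 := hmax' _ (In.start (Γ := Γ) (A := A) (e := e))
      rcases H.inner e he d hd (Or.inl h4) with h6 | h6 | h6
      · rw [h6]
        exact h1.trans h5
      · rw [h6]
        exact h3.trans h5
      · rw [h6]
        exact h2.trans h5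
    · exact hmax' _ (In.pass d hd hdA h4)
  have hnx : ∀ d ∈ A, In Γ A e d → In Γ A e (nxt Γ d) := by
    intro d hd hin
    refine In.rot _ (In.pass _ (In.rot _ hin) (H.apart d hd).1 ?_)
    intro h4
    exact (H.apart _ h4).1 (H.tri d hd).1
  have hsp := spread H R q W hW (fun d hd => (H.in_notB he hd.1).1) (fun d hd ha => hcl d ha hd.1) (fun d hd ha => by
    rw [hd.2]
    exact hle d hd.1 ha) (fun d hd ha => by
    have h4 := hnx d ha hd.1
    have h5 := hnx _ (H.tri d ha).1 h4
    rw [hd.2]
    exact ⟨hmax' _ h4, hmax' _ h5⟩)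
  -- the end of the leg is in `W`
  have hall : ∀ d, In Γ A e d → Γ.flip e ∉ W → d ∉ W := by
    intro d hd hn
    induction hd with
    | start => exact hn
    | rot d hd ih => exact fun h4 => ih ((hW d).mp h4)
    | pass d hd hd1 hd2 ih =>
      intro h4
      apply ih
      have h5 := hsp _ h4
      rw [Γ.flip_flip] at h5
      exact ⟨hd, h5.trans h4.2⟩
  have hmem : Γ.flip e ∈ W := by
    by_contra hn
    exact hall m' hm hn ⟨hm, rfl⟩
  have h4 := hsp _ hmem
  rwa [Γ.flip_flip] at h4

end

/-- All filled triangles behave like edges. -/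
theorem claims [Finite E] (H : Nest Γ s A B r σ) :
    ∀ n : ℕ, ∀ e ∈ A, r e < n → ∀ {Ω : Type*} [LinearOrder Ω] {X Y : E → Ω ≃o Ω},
      Rules Γ s A B σ X Y → Claim Γ s X Y e := by
  intro n
  induction n with
  | zero => intro e _ h; exact absurd h (Nat.not_lt_zero _)
  | succ n ih =>
    intro e he hr Ω _ X Y R
    refine claim_of_inner H R he fun q h1 h2 h3 => ?_
    have h4 := inner_max H R.dual he (fun d hd hin => by
      have h5 := H.level e he d hd hin
      exact ih d hd (by omega) R.dual) (OrderDual.toDual q) h1 h2 h3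
    exact (OrderDual.toDual.injective h4).symm

end Pool.Agent.Helper89.NEST
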