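import Mathlib
import Pool.Agent.Helper89.NEST.Poly
import Pool.Agent.Helper31.PENT.Main

/-!
Nested triangles and at most one polygon with at most five corners: the fundamental group is not
left-orderable.
-/

set_option autoImplicit false

namespace Pool.Agent.Helper89.NEST

open Pool.Agent.Helper42.Th
open Pool.Agent.Helper31.OrderAct
open Pool.Agent.Helper71.Rot
open Pool.Agent.Helper71.Tree
open Pool.Agent.Helper31.TRI (nxt In sM top mn Claim)
open Pool.Agent.Helper31.PENT (Sphere Inside Polygon Wave step eg inside_rot inside_pow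
  not_inside_flip rot_back exists_last exists_first three_aux inter_aux meet)

variable {E : Type} [Finite E] {Γ : CMap E} {s : E → Bool} {A B : Set E} {r : E → ℕ} {m : ℕ}
  {σ : ZMod m → E}

section order

variable {Ω : Type*} [LinearOrder Ω] {X Y : E → Ω ≃o Ω}

/-- The first and the last corner are not neighbours. -/
lemma Rules.apart_succ (H : Nest Γ s A B r σ) (hB : B.Nonempty)
    (R : Rules Γ s A B σ X Y) {y : Ω} {i : ZMod m}
    (hN : ¬ ∃ z, ∀ k, (X (σ k)).symm y = z) (hi : ∀ k, (X (σ i)).symm y ≤ (X (σ k)).symm y)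
    (hj : ∀ k, (X (σ k)).symm y ≤ (X (σ (i + 1))).symm y) : False := by
  have hP := (H.poly hB).2.1
  by_cases he : eg Γ σ i ∈ B
  · have hA := R.first_leg H hB y i hi he
    have h1 : X (σ (i - 1)) ((X (σ i)).symm y) ≤ y := by
      rw [← OrderIso.le_symm_apply]
      exact hi _
    rcases R.dual.high H (OrderDual.toDual ((X (σ (i + 1))).symm y)) (OrderDual.toDual y)
      (eg Γ σ i) he (hA.trans h1) with ⟨e, h2, -, h3⟩ | h2
    · obtain ⟨k, rfl⟩ := hP.leg_eg h2
      have h4 : X (eg Γ σ k) ((X (σ (i + 1))).symm y) < y := h3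
      rw [R.x_eg hP, ← OrderIso.lt_symm_apply] at h4
      exact absurd (hj k) (not_le.mpr h4)
    · have h3 : X (Γ.flip (Γ.flip (eg Γ σ i))) ((X (σ (i + 1))).symm y) =
          X (Γ.flip (eg Γ σ i)) ((X (σ (i + 1))).symm y) := OrderDual.toDual.injective h2
      rw [Γ.flip_flip, R.x_eg hP] at h3
      have h4 : X (σ i) ((X (σ (i + 1))).symm y) ≤ y := h3.le.trans (hA.trans h1)
      rw [← OrderIso.le_symm_apply] at h4
      exact hN ⟨(X (σ i)).symm y, fun k => le_antisymm ((hj k).trans h4) (hi k)⟩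
  · obtain ⟨h1, -⟩ := R.first_none H hB y i hi he
    exact hN ⟨(X (σ i)).symm y, fun k => le_antisymm ((hj k).trans h1.le) (hi k)⟩

lemma Rules.apart (H : Nest Γ s A B r σ) (hB : B.Nonempty)
    (R : Rules Γ s A B σ X Y) {y : Ω} {i j : ZMod m}
    (hN : ¬ ∃ z, ∀ k, (X (σ k)).symm y = z) (hi : ∀ k, (X (σ i)).symm y ≤ (X (σ k)).symm y)
    (hj : ∀ k, (X (σ k)).symm y ≤ (X (σ j)).symm y) : j ≠ i ∧ j ≠ i + 1 ∧ j ≠ i - 1 := by
  refine ⟨?_, ?_, ?_⟩
  · rintro rfl
    exact hN ⟨(X (σ j)).symm y, fun k => le_antisymm (hj k) (hi k)⟩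
  · rintro rfl
    exact R.apart_succ H hB hN hi hj
  · rintro rfl
    refine R.dual.apart_succ H hB (y := OrderDual.toDual y) (i := i - 1) ?_ hj ?_
    · rintro ⟨z, hz⟩
      exact hN ⟨OrderDual.ofDual z, fun k => congrArg OrderDual.ofDual (hz k)⟩
    · rw [sub_add_cancel]
      exact hi

/-- There are not three neighbouring first corners. -/
lemma Rules.three (H : Nest Γ s A B r σ) (hB : B.Nonempty)
    (R : Rules Γ s A B σ X Y) {y : Ω} {i : ZMod m}
    (hN : ¬ ∃ z, ∀ k, (X (σ k)).symm y = z) (hi : ∀ k, (X (σ i)).symm y ≤ (X (σ k)).symm y)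
    (h1 : (X (σ (i + 1))).symm y = (X (σ i)).symm y)
    (h2 : (X (σ (i - 1))).symm y = (X (σ i)).symm y) : False := by
  have hP := (H.poly hB).2.1
  have : NeZero m := ⟨by have := hP.size.1; omega⟩
  obtain ⟨j, hj⟩ := exists_last (fun k => X (σ k)) y
  exact three_aux hP.size i j (R.apart H hB hN hi hj)
    (R.apart H hB (i := i + 1) hN (by rw [h1]; exact hi) hj)
    (R.apart H hB (i := i - 1) hN (by rw [h2]; exact hi) hj)

/-- The walk from the first corner to another corner. -/
lemma Rules.outlet (H : Nest Γ s A B r σ) (hB : B.Nonempty)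
    (R : Rules Γ s A B σ X Y) {y : Ω} {i : ZMod m}
    (hN : ¬ ∃ z, ∀ k, (X (σ k)).symm y = z) (hi : ∀ k, (X (σ i)).symm y ≤ (X (σ k)).symm y) :
    eg Γ σ i ∈ B ∧ ∃ l, eg Γ σ l ∈ B ∧ (l ≠ i ∧ l ≠ i + 1 ∧ l ≠ i - 1) ∧
      Reach Γ A B {d | X d ((X (σ (i + 1))).symm y) ≤ X (σ (i - 1)) ((X (σ i)).symm y)}
        (Γ.flip (eg Γ σ i)) (Γ.flip (eg Γ σ l)) := by
  have hP := (H.poly hB).2.1
  have he : eg Γ σ i ∈ B := by
    by_contra he
    obtain ⟨h1, h2⟩ := R.first_none H hB y i hi he
    exact R.three H hB hN hi h1 h2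
  refine ⟨he, ?_⟩
  have hA := R.first_leg H hB y i hi he
  have h1 : X (σ (i - 1)) ((X (σ i)).symm y) ≤ y := by
    rw [← OrderIso.le_symm_apply]
    exact hi _
  rcases R.dual.high H (OrderDual.toDual ((X (σ (i + 1))).symm y))
    (OrderDual.toDual (X (σ (i - 1)) ((X (σ i)).symm y)))
    (eg Γ σ i) he hA with ⟨e, h2, h3, h4⟩ | h2
  · obtain ⟨l, rfl⟩ := hP.leg_eg h2
    have h5 : X (eg Γ σ l) ((X (σ (i + 1))).symm y) < X (σ (i - 1)) ((X (σ i)).symm y) := h4
    rw [R.x_eg hP] at h5
    refine ⟨l, h2, ⟨?_, ?_, ?_⟩, h3⟩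
    · rintro rfl
      have h6 : y ≤ X (σ l) ((X (σ (l + 1))).symm y) := by
        rw [← OrderIso.symm_apply_le]
        exact hi _
      exact absurd (h1.trans h6) (not_le.mpr h5)
    · rintro rfl
      rw [OrderIso.apply_symm_apply] at h5
      exact absurd h1 (not_le.mpr h5)
    · rintro rfl
      rw [OrderIso.lt_iff_lt] at h5
      exact absurd (hi _) (not_le.mpr h5)
  · exfalso
    have h3 : X (Γ.flip (Γ.flip (eg Γ σ i))) ((X (σ (i + 1))).symm y) =
        X (Γ.flip (eg Γ σ i)) ((X (σ (i + 1))).symm y) := OrderDual.toDual.injective h2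
    rw [Γ.flip_flip, R.x_eg hP] at h3
    have h4 : y ≤ X (σ i) ((X (σ (i + 1))).symm y) := by
      rw [← OrderIso.symm_apply_le]
      exact hi _
    have h5 : y ≤ X (σ (i - 1)) ((X (σ i)).symm y) := h4.trans (h3.le.trans hA)
    have h6 : X (σ i) ((X (σ (i + 1))).symm y) ≤ y := h3.le.trans (hA.trans h1)
    rw [← OrderIso.le_symm_apply] at h6
    rw [← OrderIso.symm_apply_le] at h5
    exact R.three H hB hN hi (le_antisymm h6 (hi _)) (le_antisymm h5 (hi _))

/-- A common vertex of the walks from the last and from the first corner. -/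
lemma Rules.common (H : Nest Γ s A B r σ) (hB : B.Nonempty)
    (R : Rules Γ s A B σ X Y) {y z : Ω}
    {i j : ZMod m} (hNy : ¬ ∃ x, ∀ k, (X (σ k)).symm y = x)
    (hNz : ¬ ∃ x, ∀ k, (X (σ k)).symm z = x)
    (hi : ∀ k, (X (σ i)).symm y ≤ (X (σ k)).symm y)
    (hj : ∀ k, (X (σ k)).symm z ≤ (X (σ j)).symm z) :
    ∃ d, X (σ (j - 1)) ((X (σ j)).symm z) ≤ X d ((X (σ (j + 1))).symm z) ∧
      X d ((X (σ (i + 1))).symm y) ≤ X (σ (i - 1)) ((X (σ i)).symm y) := by
  have hP := (H.poly hB).2.1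
  have : NeZero m := ⟨by have := hP.size.1; omega⟩
  have hSp := (H.poly hB).1
  obtain ⟨ei, l, el, hl, rl⟩ := R.outlet H hB hNy hi
  obtain ⟨ej, k, ek, hk, rk⟩ := R.dual.outlet H hB (y := OrderDual.toDual z) (i := j)
    (by
      rintro ⟨x, hx⟩
      exact hNz ⟨OrderDual.ofDual x, fun k => congrArg OrderDual.ofDual (hx k)⟩) hj
  set U : Set E := {d | X (σ (j - 1)) ((X (σ j)).symm z) ≤ X d ((X (σ (j + 1))).symm z)} with hU
  set V : Set E := {d | X d ((X (σ (i + 1))).symm y) ≤ X (σ (i - 1)) ((X (σ i)).symm y)} with hV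
  have rk' : Reach Γ A B U (Γ.flip (eg Γ σ j)) (Γ.flip (eg Γ σ k)) := rk
  have hUr : ∀ d ∈ U, Γ.rot d ∈ U := by
    intro d hd
    change _ ≤ X (Γ.rot d) _
    rw [R.x_rot]
    exact hd
  have hVr : ∀ d ∈ V, Γ.rot d ∈ V := by
    intro d hd
    change X (Γ.rot d) _ ≤ _
    rw [R.x_rot]
    exact hd
  have key := inter_aux hP.size (i - j) (k - j) (l - j)
    ⟨fun h => hk.1 (by linear_combination h), fun h => hk.2.1 (by linear_combination h),
      fun h => hk.2.2 (by linear_combination h)⟩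
    ⟨fun h => hl.1 (by linear_combination h), fun h => hl.2.1 (by linear_combination h),
      fun h => hl.2.2 (by linear_combination h)⟩
  have ci : j + (((i - j).val : ℕ) : ZMod m) = i := by
    rw [ZMod.natCast_zmod_val]
    ring
  have ck : j + (((k - j).val : ℕ) : ZMod m) = k := by
    rw [ZMod.natCast_zmod_val]
    ring
  have cl : j + (((l - j).val : ℕ) : ZMod m) = l := by
    rw [ZMod.natCast_zmod_val]
    ring
  rcases key with h | h | h | h | h | h
  · have : k = i := by linear_combination h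
    subst this
    exact ⟨_, rk'.pent.mem hUr, rl.pent.start⟩
  · have : k = l := by linear_combination h
    subst this
    exact ⟨_, rk'.pent.mem hUr, rl.pent.mem hVr⟩
  · have : l = j := by linear_combination h
    subst this
    exact ⟨_, rk'.pent.start, rl.pent.mem hVr⟩
  · have : i = j := by linear_combination h
    subst this
    exact ⟨_, rk'.pent.start, rl.pent.start⟩
  · exact meet hSp hP hUr hVr (a := j) (p := (i - j).val) (s := (k - j).val) (q := (l - j).val)
      h.1 h.2.1 h.2.2 (ZMod.val_lt _) ej (by rwa [ck]) (by rwa [ci]) (by rwa [cl])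
      (by rw [ck]; exact rk'.pent) (Or.inl (by rw [ci, cl]; exact rl.pent))
  · exact meet hSp hP hUr hVr (a := j) (p := (l - j).val) (s := (k - j).val) (q := (i - j).val)
      h.1 h.2.1 h.2.2 (ZMod.val_lt _) ej (by rwa [ck]) (by rwa [cl]) (by rwa [ci])
      (by rw [ck]; exact rk'.pent) (Or.inr (by rw [ci, cl]; exact rl.pent))

/-- The labels of the corners. -/
lemma Rules.wave (H : Nest Γ s A B r σ) (hB : B.Nonempty)
    (R : Rules Γ s A B σ X Y) (U : Ω → Prop)
    (hU : ∀ k z, U z → U (X (σ k) z)) (hU' : ∀ k z, U z → U ((X (σ k)).symm z))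
    (hN : ∀ y, U y → ¬ ∃ z, ∀ k, (X (σ k)).symm y = z) : Wave U (fun k => X (σ k)) where
  inv := hU
  inv' := hU'
  apart y i j hy hi hj := R.apart H hB (hN y hy) hi hj
  cross y z i j hy hz hi hj hle := by
    obtain ⟨d, h1, h2⟩ := R.common H hB (hN y hy) (hN z hz) hi hj
    exact h1.trans (((X d).monotone hle).trans h2)
  cross' y z i j hy hz hi hj hlt := by
    obtain ⟨d, h1, h2⟩ := R.common H hB (hN y hy) (hN z hz) hi hj
    exact h1.trans_lt (((X d).strictMono hlt).trans_le h2)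

omit [Finite E] in
/-- If all vertices have the same height, all labels are equal. -/
lemma Rules.faces (H : Nest Γ s A B r σ) (R : Rules Γ s A B σ X Y) {y z : Ω}
    (hX : ∀ d, X d z = y) (c d : E) : Y c z = Y d z := by
  have hY : ∀ d, Y (Γ.flip d) z = Y d z := by
    intro d
    have h1 := R.pos d z ((hX _).trans (hX _).symm).le
    have h2 := R.pos (Γ.flip d) z ((hX _).trans (hX _).symm).le
    rw [Γ.flip_flip] at h2
    have h3 := le_antisymm h1 h2
    unfold top at h3
    rw [H.flip, Γ.flip_flip] at h3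
    split_ifs at h3
    · exact h3
    · exact h3.symm
  have huniv := Γ.conn {e | Y e z = Y d z} ⟨d, rfl⟩ fun e he => by
    refine ⟨?_, (hY e).trans he⟩
    change Y (Γ.rot e) z = Y d z
    rw [← hY, R.y_rot]
    exact he
  have : c ∈ {e | Y e z = Y d z} := by
    rw [huniv]
    trivial
  exact this

/-- If the corners have the same height, all labels are equal. -/
lemma Rules.all_eq (H : Nest Γ s A B r σ) (hB : B.Nonempty) (R : Rules Γ s A B σ X Y) {y z : Ω}
    (h : ∀ k, X (σ k) z = y) : (∀ d, X d z = y) ∧ ∀ c d, Y c z = Y d z := by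
  have hX : ∀ d, X d z = y := fun d => le_antisymm (R.le_of_corners H hB z y h d)
    (R.dual.le_of_corners H hB (OrderDual.toDual z) (OrderDual.toDual y)
      (fun k => congrArg OrderDual.toDual (h k)) d)
  exact ⟨hX, R.faces H hX⟩

/-- Without a polygon, all labels agree at every point. -/
theorem Rules.none (H : Nest Γ s A B r σ) (hB : ∀ d, d ∉ B) (R : Rules Γ s A B σ X Y) (z : Ω) :
    ∃ y, (∀ d, X d z = y) ∧ ∀ c d, Y c z = Y d z := by
  rcases isEmpty_or_nonempty E with hE | hE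
  · exact ⟨z, fun d => hE.elim d, fun c => hE.elim c⟩
  obtain ⟨c, hc⟩ := Finite.exists_max (fun d => X d z)
  have hsp := spread H R z {d | X d z = X c z} (fun d => by
    change X (Γ.rot d) z = X c z ↔ X d z = X c z
    rw [R.x_rot]) (fun d _ => hB d)
    (fun e _ ha => claims H (r e + 1) e ha (Nat.lt_succ_self _) R)
    (fun d hd _ => (hc _).trans (le_of_eq (Eq.symm hd)))
    (fun d hd _ => ⟨(hc _).trans (le_of_eq (Eq.symm hd)), (hc _).trans (le_of_eq (Eq.symm hd))⟩)
  have huniv := Γ.conn {d | X d z = X c z} ⟨c, rfl⟩ fun d hd => by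
    refine ⟨?_, (hsp d hd).trans hd⟩
    change X (Γ.rot d) z = X c z
    rw [R.x_rot]
    exact hd
  have hX : ∀ d, X d z = X c z := by
    intro d
    have : d ∈ {d | X d z = X c z} := by
      rw [huniv]
      trivial
    exact this
  exact ⟨_, hX, R.faces H hX⟩

end order

/-- The main theorem. -/
theorem not_leftOrderable {G : Type*} [Group G] (H : Nest Γ s A B r σ)
    (L : Lab G Γ) (P : Set E) (F : E → Set G) (hF : Filled L s A B σ P F)
    (hgen : Subgroup.closure (L.elts ∪ ⋃ d ∈ P, F d) = ⊤) :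
    ¬ (Nontrivial G ∧ ∃ _ : LinearOrder G, ∀ f g h : G, g ≤ h → f * g ≤ f * h) := by
  rintro ⟨hnt, ⟨ho, hmul⟩⟩
  set ρ := cutHom hmul with hρ
  have R := rules_of_filled L ρ H hF
  -- a point at which the labels agree is fixed
  have hall : ∀ y z : LowerSet G, (∀ d, lx L ρ d z = y) → (∀ c d, ly L ρ c z = ly L ρ d z) →
      y = z ∧ ∀ g : G, ρ g z = z := by
    intro y z hX hY
    have hy : y = z := by
      obtain ⟨c, hc⟩ := L.x_one
      have h1 := hX c
      change ρ (L.x c) z = y at h1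
      rw [hc, map_one] at h1
      exact h1.symm
    have hX1 : ∀ d, ρ (L.x d) z = z := fun d => (hX d).trans hy
    have hY1 : ∀ d, ρ (L.y d) z = z := by
      obtain ⟨c, hc⟩ := L.y_one
      intro d
      have h1 : ly L ρ d z = ly L ρ c z := hY d c
      change ρ (L.y d) z = ρ (L.y c) z at h1
      rw [h1, hc, map_one]
      rfl
    have hDd : ∀ d, ρ (L.D d) z = z := by
      intro d
      rw [Lab.D, map_mul, map_inv, RelIso.mul_apply, hX1]
      exact inv_fix (hX1 _)
    have hMd : ∀ d, ρ (L.M d) z = z := by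
      intro d
      rw [Lab.M, map_mul, map_inv, RelIso.mul_apply, hY1]
      exact inv_fix (hY1 _)
    have hMs : ∀ d, ρ (sM L s d) z = z := by
      intro d
      unfold sM
      split_ifs
      · exact hMd d
      · rw [map_inv]
        exact inv_fix (hMd d)
    refine ⟨hy, fun g => ?_⟩
    have hg : g ∈ Subgroup.closure (L.elts ∪ ⋃ d ∈ P, F d) := by
      rw [hgen]
      trivial
    induction hg using Subgroup.closure_induction with
    | mem y hy =>
      rcases hy with (⟨d, rfl⟩ | ⟨d, rfl⟩) | hy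
      · exact hX1 d
      · exact hY1 d
      · obtain ⟨d, hd⟩ := Set.mem_iUnion.mp hy
        obtain ⟨hd1, hd2⟩ := Set.mem_iUnion.mp hd
        by_cases h1 : d ∈ A ∪ B ∨ Γ.flip d ∈ A ∪ B
        · exact (spec_of_fill ρ (hF.leg d hd1 h1)).fix z (hDd d) (hMs d) _ ⟨y, hd2, rfl⟩
        · by_cases h2 : Side Γ A B σ d
          · exact (spec_of_fill ρ (hF.side d hd1 h2)).fix z (hMs d) (hDd d) _ ⟨y, hd2, rfl⟩
          · exact (spec_of_fill ρ (hF.other d hd1 (fun h3 => h1 (Or.inl h3))
              (fun h3 => h1 (Or.inr h3)) h2)).fix z (hMs d) (hDd d) _ ⟨y, hd2, rfl⟩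
    | one => rw [map_one]; rfl
    | mul a b _ _ ha hb => rw [map_mul, RelIso.mul_apply, hb, ha]
    | inv a _ ha => rw [map_inv]; exact inv_fix ha
  -- fixed points are trivial
  have htriv : ∀ z : LowerSet G, (∀ g : G, ρ g z = z) → z = ⊥ ∨ z = ⊤ := by
    intro z hz
    by_cases h0 : z = ⊥
    · exact Or.inl h0
    · right
      have h1 : ∃ x : G, x ∈ z := by
        by_contra hn
        push Not at hn
        apply h0
        ext x
        simpa using hn x
      obtain ⟨x, hx⟩ := h1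
      ext y
      simp only [LowerSet.coe_top, Set.mem_univ, iff_true, SetLike.mem_coe]
      rw [← hz (y * x⁻¹), hρ, mem_cutHom]
      simpa using hx
  -- a nontrivial point
  have h1 : ∃ y : LowerSet G, y ≠ ⊥ ∧ y ≠ ⊤ := by
    obtain ⟨a, b, hab⟩ := exists_pair_lt G
    refine ⟨LowerSet.Iic a, ?_, ?_⟩
    · intro h
      have h2 : a ∈ LowerSet.Iic a := by simp
      rw [h] at h2
      simp at h2
    · intro h
      have h2 : b ∈ LowerSet.Iic a := by
        rw [h]
        simp
      exact absurd (LowerSet.mem_Iic_iff.mp h2) (not_le.mpr hab)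
  obtain ⟨y, hy⟩ := h1
  rcases Set.eq_empty_or_nonempty B with hB | hB
  · obtain ⟨y', hX, hY⟩ := R.none H (fun d hd => by
      rw [hB] at hd
      exact hd) y
    obtain ⟨-, h5⟩ := hall y' y hX hY
    rcases htriv _ h5 with h6 | h6
    · exact hy.1 h6
    · exact hy.2 h6
  · have hP := (H.poly hB).2.1
    have hm : 0 < m := by
      have := hP.size.1
      omega
    refine (R.wave H hB (fun z => z ≠ ⊥ ∧ z ≠ ⊤) ?_ ?_ ?_).main hm hP.size.2 y hy
    · rintro k z ⟨h2, h3⟩
      exact ⟨fun h => h2 ((map_eq_bot_iff _).mp h), fun h => h3 ((map_eq_top_iff _).mp h)⟩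
    · rintro k z ⟨h2, h3⟩
      exact ⟨fun h => h2 ((map_eq_bot_iff _).mp h), fun h => h3 ((map_eq_top_iff _).mp h)⟩
    · rintro y ⟨h2, h3⟩ ⟨z, hz⟩
      obtain ⟨hX, hY⟩ := R.all_eq H hB (y := y) (z := z) fun k => by
        rw [← hz k, OrderIso.apply_symm_apply]
      obtain ⟨h4, h5⟩ := hall y z hX hY
      subst h4
      rcases htriv _ h5 with h6 | h6
      · exact h2 h6
      · exact h3 h6

end Pool.Agent.Helper89.NEST
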